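import Pool.Agent.helper13.U4.SpecY

/-!
# KL4: a finite check on eight Booleans
-/

set_option autoImplicit false

namespace Pool.Agent.U4

open Pool.Agent.UL

set_option maxRecDepth 100000 in
theorem KL4_dec : ∀ a0 a1 a2 a3 a4 a5 a6 a7 : Bool,
    [ex1 a0 a1 a2, ex1 a5 a6 a7, a0, a1, a2, a5, a6, a7].count true ≤ 1 →
    ex1 (ex1 a0 a1 a2) (ex1 a1 a2 a3) (ex1 a2 a3 a4) = false →
    ex1 (ex1 a1 a2 a3) (ex1 a2 a3 a4) (ex1 a3 a4 a5) = false →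
    ex1 (ex1 a2 a3 a4) (ex1 a3 a4 a5) (ex1 a4 a5 a6) = false →
    ex1 (ex1 a3 a4 a5) (ex1 a4 a5 a6) (ex1 a5 a6 a7) = false →
    ex1 a0 a1 a2 = false ∧ ex1 a1 a2 a3 = false := by
  decide

theorem KL4 : KL4_stmt := by
  intro u w hw hc hd
  have w0 := hw 0 (by omega)
  have w1 := hw 1 (by omega)
  have w2 := hw 2 (by omega)
  have w3 := hw 3 (by omega)
  have w4 := hw 4 (by omega)
  have w5 := hw 5 (by omega)
  have d0 := hd 0 (by omega)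
  have d1 := hd 1 (by omega)
  have d2 := hd 2 (by omega)
  have d3 := hd 3 (by omega)
  norm_num at w0 w1 w2 w3 w4 w5 d0 d1 d2 d3
  rw [w0, w1, w2] at d0
  rw [w1, w2, w3] at d1
  rw [w2, w3, w4] at d2
  rw [w3, w4, w5] at d3
  rw [w0, w5] at hc
  rw [w0, w1]
  exact KL4_dec _ _ _ _ _ _ _ _ hc d0 d1 d2 d3

end Pool.Agent.U4
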