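import Pool.Agent.helper13.U4.SpecY

/-!
# SPR: two adjacent zeros spread
-/

set_option autoImplicit false

namespace Pool.Agent.U4

open Pool.Agent.UL

theorem SPR_a : ∀ a : Bool, ex1 a false false = a := by decide

theorem SPR_b : ∀ a : Bool, ex1 false false a = a := by decide

theorem SPR : SPR_stmt := by
  intro f n b hf hb h0 h1
  have hdown : ∀ j : ℕ, j ≤ b → f (b - j) = false ∧ f (b - j + 1) = false := by
    intro j
    induction j with
    | zero => intro _; exact ⟨h0, h1⟩
    | succ j ih =>
      intro hj
      obtain ⟨ha, hc⟩ := ih (by omega)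
      have e1 : b - (j + 1) + 1 = b - j := by omega
      have e2 : b - (j + 1) + 2 = b - j + 1 := by omega
      have h := hf (b - (j + 1)) (by omega)
      rw [e1, e2, ha, hc, SPR_a] at h
      exact ⟨h, by rw [e1]; exact ha⟩
  have hup : ∀ j : ℕ, b + 1 + j ≤ n + 2 → f (b + j) = false ∧ f (b + 1 + j) = false := by
    intro j
    induction j with
    | zero => intro _; exact ⟨h0, h1⟩
    | succ j ih =>
      intro hj
      obtain ⟨ha, hc⟩ := ih (by omega)
      have h := hf (b + j) (by omega)
      have e1 : b + j + 1 = b + 1 + j := by omega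
      have e2 : b + j + 2 = b + 1 + (j + 1) := by omega
      rw [e1, e2, ha, hc, SPR_b] at h
      exact ⟨by rw [show b + (j + 1) = b + 1 + j by omega]; exact hc, h⟩
  intro r hr
  rcases Nat.lt_or_ge r (b + 1) with hlt | hge
  · have := (hdown (b - r) (by omega)).1
    rwa [show b - (b - r) = r by omega] at this
  · have := (hup (r - (b + 1)) (by omega)).2
    rwa [show b + 1 + (r - (b + 1)) = r by omega] at this

end Pool.Agent.U4
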