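import Pool.Agent.helper13.U4.SpecD

/-!
# WTT: two representations by cells give two representations
-/

set_option autoImplicit false

namespace Pool.Agent.U4

open Pool.Agent.UL

theorem WTT_sum {v ρ σ r1 t1 r2 t2 : ℕ} {x : ℕ → ℕ → Bool} (h : Wit v x ρ σ r1 t1 r2 t2) :
    (v : ℤ) * ρ + 2 * σ - ((v : ℤ) * r1 + 2 * t1) = (v : ℤ) * r2 + 2 * t2 := by
  obtain ⟨-, -, -, -, -, h | h⟩ := h
  · have e1 : (ρ : ℤ) = r1 + r2 := by exact_mod_cast h.1.symm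
    have e2 : (σ : ℤ) = t1 + t2 := by exact_mod_cast h.2.symm
    rw [e1, e2]; ring
  · have e1 : (ρ : ℤ) = r1 + r2 + 2 := by exact_mod_cast h.1.symm
    have e2 : (σ : ℤ) = t1 + t2 - v := by
      have : ((t1 + t2 : ℕ) : ℤ) = ((σ + v : ℕ) : ℤ) := by exact_mod_cast h.2
      push_cast at this
      linarith
    rw [e1, e2]; ring

theorem WTT (h1 : CEL_stmt) : WTT_stmt := by
  intro v F ρ σ hv h
  obtain ⟨r1, t1, r2, t2, r3, t3, r4, t4, hw, hw', hn1, hn2⟩ := h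
  have hc := (h1 v hv).1
  have e1 := WTT_sum hw
  have e2 := WTT_sum hw'
  obtain ⟨a1, a2, b1, b2, hne, -⟩ := hw
  obtain ⟨a3, a4, b3, b4, hne', -⟩ := hw'
  refine ⟨(v : ℤ) * r1 + 2 * t1, (v : ℤ) * r3 + 2 * t3, a1, ?_, a3, ?_, ?_, ?_, ?_, ?_⟩
  · rw [e1]; exact a2
  · rw [e2]; exact a4
  · rw [e1]; intro h
    obtain ⟨p, q⟩ := hc _ _ _ _ b1 b2 h
    exact hne ⟨q, p⟩
  · rw [e2]; intro h
    obtain ⟨p, q⟩ := hc _ _ _ _ b3 b4 h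
    exact hne' ⟨q, p⟩
  · intro h
    obtain ⟨p, q⟩ := hc _ _ _ _ b3 b1 h
    exact hn1 ⟨q, p⟩
  · rw [e1]; intro h
    obtain ⟨p, q⟩ := hc _ _ _ _ b3 b2 h
    exact hn2 ⟨q, p⟩

end Pool.Agent.U4
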